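import Pool.Agent.Work.MP_b29d7f_ns_helper31.COMP2C

set_option autoImplicit false

open Finset Filter Topology MeasureTheory Metric

namespace Pool.NS

namespace LIM2_

variable {R : Type} [CommRing R] {P : Data R} (S : Sq P) (v : P.Ω)

/-- truncated logarithm -/
noncomputable def gM {k : ℕ} (M : ℕ) (ξ z : E k) : ℝ :=
  Real.log (‖ξ - z‖ ^ 2 + Real.exp (-(M : ℝ)) ^ 2) / 2

lemma gM_continuous {k : ℕ} (M : ℕ) (ξ : E k) : Continuous (gM M ξ) := by
  unfold gM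
  apply Continuous.div_const
  apply Continuous.log
  · fun_prop
  · intro z
    have := Real.exp_pos (-(M : ℝ))
    positivity

lemma gM_bound {k : ℕ} (M : ℕ) (ξ z : E k) :
    |gM M ξ z| ≤ (M + ‖ξ‖ + 1) + Real.posLog ‖z‖ := by
  have he : 0 < Real.exp (-(M : ℝ)) := Real.exp_pos _
  have he1 : Real.exp (-(M : ℝ)) ≤ 1 := by
    rw [Real.exp_le_one_iff]; simp
  have h0 := norm_nonneg ξ
  have h0' := norm_nonneg z
  have h1 : Real.log (Real.exp (-(M : ℝ)) ^ 2) ≤ Real.log (‖ξ - z‖ ^ 2 + Real.exp (-(M : ℝ)) ^ 2) :=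
    Real.log_le_log (by positivity) (by nlinarith [norm_nonneg (ξ - z)])
  rw [Real.log_pow, Real.log_exp] at h1
  have h2 : Real.log (‖ξ - z‖ ^ 2 + Real.exp (-(M : ℝ)) ^ 2)
      ≤ Real.log (((1 + ‖ξ‖) * (1 + ‖z‖)) ^ 2) := by
    apply Real.log_le_log (by positivity)
    have h3 := norm_sub_le ξ z
    have h4 : ‖ξ - z‖ ^ 2 ≤ (‖ξ‖ + ‖z‖) ^ 2 := pow_le_pow_left₀ (norm_nonneg _) h3 2
    nlinarith [mul_nonneg h0 h0']
  rw [Real.log_pow, Real.log_mul (by positivity) (by positivity)] at h2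
  have h5 : Real.log (1 + ‖ξ‖) ≤ ‖ξ‖ := by
    have := Real.log_le_sub_one_of_pos (show 0 < 1 + ‖ξ‖ by positivity)
    linarith
  have h6 : Real.log (1 + ‖z‖) ≤ 1 + Real.posLog ‖z‖ := by
    have hp : 0 ≤ Real.posLog ‖z‖ := Real.posLog_nonneg
    rcases le_or_gt ‖z‖ 1 with h | h
    · have h7 : Real.log (1 + ‖z‖) ≤ 1 := by
        have := Real.log_le_sub_one_of_pos (show 0 < 1 + ‖z‖ by positivity)
        linarith
      linarith
    · have h7 : Real.log (1 + ‖z‖) ≤ Real.log (2 * ‖z‖) :=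
        Real.log_le_log (by positivity) (by linarith)
      rw [Real.log_mul (by norm_num) (by positivity)] at h7
      have h8 : Real.log ‖z‖ ≤ Real.posLog ‖z‖ := le_max_right _ _
      have h9 : Real.log 2 ≤ 1 := by
        have := Real.log_le_sub_one_of_pos (show (0 : ℝ) < 2 by norm_num)
        linarith
      linarith
  have h10 : 0 ≤ Real.posLog ‖z‖ := Real.posLog_nonneg
  have h11 : (0 : ℝ) ≤ M := Nat.cast_nonneg _
  unfold gM
  push_cast at h1 h2
  rw [abs_le]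
  constructor <;> linarith

/-- continuous cut-off -/
noncomputable def cut {k : ℕ} (r : ℝ) (z : E k) : ℝ := max 0 (min 1 (r + 1 - ‖z‖))

lemma cut_continuous {k : ℕ} (r : ℝ) : Continuous (cut (k := k) r) := by
  unfold cut; fun_prop

lemma cut_nonneg {k : ℕ} (r : ℝ) (z : E k) : 0 ≤ cut r z := le_max_left _ _

lemma cut_le_one {k : ℕ} (r : ℝ) (z : E k) : cut r z ≤ 1 := by
  unfold cut; exact max_le zero_le_one (min_le_left _ _)

lemma cut_eq_one {k : ℕ} {r : ℝ} {z : E k} (h : ‖z‖ ≤ r) : cut r z = 1 := by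
  unfold cut
  rw [min_eq_left (by linarith), max_eq_right zero_le_one]

lemma cut_compact {k : ℕ} (r : ℝ) (g : E k → ℝ) : HasCompactSupport fun z => g z * cut r z := by
  apply HasCompactSupport.intro (isCompact_closedBall (0 : E k) (r + 1))
  intro z hz
  rw [mem_closedBall_zero_iff, not_le] at hz
  have : cut r z = 0 := by
    unfold cut
    apply max_eq_left
    exact (min_le_right _ _).trans (by linarith)
  rw [this, mul_zero]

lemma hyper_le : (𝒰 : Filter ℕ) ≤ atTop := Nat.hyperfilter_le_atTop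

/-- convergence of the averages of `gM` -/
lemma avg_tendsto (hT : Stmt_TAIL) {f : E (P.e v) → ℝ} (hf : WeakV S v f) (M : ℕ)
    (ξ : E (P.e v)) :
    Tendsto (fun l => (S.n l)⁻¹ * ∑ b ∈ S.A l, gM M ξ (S.X l b v)) 𝒰
      (𝓝 (∫ z, gM M ξ z * f z)) := by
  classical
  obtain ⟨C, hC1, _, hC⟩ := hT R P S
  obtain ⟨R₀, hR₀⟩ := hf.supp
  set r : ℝ := max (Real.exp C) R₀ with hr
  set K : ℝ := M + ‖ξ‖ + 1 with hK
  have hK0 : 0 ≤ K := by
    have : (0 : ℝ) ≤ M := Nat.cast_nonneg _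
    positivity
  have hw := hf.weak (fun z => gM M ξ z * cut r z) ((gM_continuous M ξ).mul (cut_continuous r))
    (cut_compact r _)
  have hint : ∫ z, gM M ξ z * cut r z * f z = ∫ z, gM M ξ z * f z := by
    congr 1
    funext z
    by_cases hz : R₀ ≤ ‖z‖
    · rw [hR₀ z hz, mul_zero, mul_zero]
    · rw [cut_eq_one ((not_le.1 hz).le.trans (le_max_right _ _)), mul_one]
  rw [hint] at hw
  rw [Metric.tendsto_nhds] at hw ⊢
  intro ε hε
  have hC' := (hC (ε / (2 * (K + 1))) (by positivity))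
  filter_upwards [hw (ε / 2) (by positivity), hyper_le hC'] with l h1 h2
  have hn := S.n_pos l
  have hdiff : |(S.n l)⁻¹ * ∑ b ∈ S.A l, gM M ξ (S.X l b v)
      - (S.n l)⁻¹ * ∑ b ∈ S.A l, gM M ξ (S.X l b v) * cut r (S.X l b v)| ≤ ε / 2 := by
    rw [← mul_sub, ← Finset.sum_sub_distrib, abs_mul, abs_of_pos (inv_pos.2 hn)]
    have h3 : |∑ b ∈ S.A l, (gM M ξ (S.X l b v) - gM M ξ (S.X l b v) * cut r (S.X l b v))|
        ≤ ∑ b ∈ (S.A l).filter (fun x => C ≤ S.ex l x), (K + 1) * S.ex l b := by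
      rw [Finset.sum_filter]
      refine (Finset.abs_sum_le_sum_abs _ _).trans (Finset.sum_le_sum fun b _ => ?_)
      have h4 : gM M ξ (S.X l b v) - gM M ξ (S.X l b v) * cut r (S.X l b v)
          = gM M ξ (S.X l b v) * (1 - cut r (S.X l b v)) := by ring
      rw [h4, abs_mul, abs_of_nonneg (sub_nonneg.2 (cut_le_one _ _))]
      by_cases h5 : ‖S.X l b v‖ ≤ r
      · rw [cut_eq_one h5, sub_self, mul_zero]
        split_ifs
        · exact mul_nonneg (by linarith) (S.ex_nonneg l b)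
        · exact le_rfl
      · have h6 : Real.exp C < ‖S.X l b v‖ := lt_of_le_of_lt (le_max_left _ _) (not_le.1 h5)
        have h7 : C ≤ Real.posLog ‖S.X l b v‖ := by
          have : C < Real.log ‖S.X l b v‖ := by
            rw [Real.lt_log_iff_exp_lt ((Real.exp_pos _).trans h6)]; exact h6
          exact this.le.trans (le_max_right _ _)
        have h8 := S.posLog_le_ex l b v
        have h9 : C ≤ S.ex l b := h7.trans h8
        rw [if_pos h9]
        have h10 := gM_bound M ξ (S.X l b v)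
        have h11 := cut_nonneg r (S.X l b v)
        have h12 := abs_nonneg (gM M ξ (S.X l b v))
        calc |gM M ξ (S.X l b v)| * (1 - cut r (S.X l b v)) ≤ |gM M ξ (S.X l b v)| * 1 :=
              mul_le_mul_of_nonneg_left (by linarith) h12
          _ ≤ K + S.ex l b := by rw [mul_one]; linarith
          _ ≤ (K + 1) * S.ex l b := by nlinarith
    rw [← Finset.mul_sum] at h3
    have h4 : (S.n l)⁻¹ * ((K + 1) * ∑ x ∈ (S.A l).filter (fun x => C ≤ S.ex l x), S.ex l x)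
        ≤ ε / 2 := by
      have hK1 : 0 < K + 1 := by linarith
      rw [inv_mul_le_iff₀ hn]
      calc (K + 1) * ∑ x ∈ (S.A l).filter (fun x => C ≤ S.ex l x), S.ex l x
          ≤ (K + 1) * (ε / (2 * (K + 1)) * S.n l) := mul_le_mul_of_nonneg_left h2 hK1.le
        _ = S.n l * (ε / 2) := by field_simp
    exact (mul_le_mul_of_nonneg_left h3 (inv_pos.2 hn).le).trans h4
  rw [Real.dist_eq] at h1 ⊢
  calc _ = |((S.n l)⁻¹ * ∑ b ∈ S.A l, gM M ξ (S.X l b v)
      - (S.n l)⁻¹ * ∑ b ∈ S.A l, gM M ξ (S.X l b v) * cut r (S.X l b v))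
      + ((S.n l)⁻¹ * ∑ b ∈ S.A l, gM M ξ (S.X l b v) * cut r (S.X l b v)
        - ∫ z, gM M ξ z * f z)| := by congr 1; ring
    _ ≤ _ := abs_add_le _ _
    _ < ε := by linarith

/-- the limit `M → ∞` -/
lemma int_tendsto {k : ℕ} (hk : k = 1 ∨ k = 2) {f φ : E k → ℝ} (hf : Dens k f φ) (ξ : E k) :
    Tendsto (fun M : ℕ => ∫ z, gM M ξ z * f z) atTop (𝓝 (∫ z, Real.log ‖ξ - z‖ * f z)) := by
  have hnt := LOGI_.nontriv hk
  obtain ⟨B, R₀, hB0, hR0, hB, hR⟩ := LOGI_.norm_bounds hf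
  obtain ⟨K, hK0, hK⟩ := LOGI_.abs_log_bound hk hf ‖ξ‖
  have hi := (hK ξ le_rfl).1
  have hfm := hf.meas
  have hne : ∀ᵐ z : E k, z ≠ ξ := by
    rw [ae_iff]; simp
  apply tendsto_integral_of_dominated_convergence
    (fun z => |Real.log ‖ξ - z‖| * f z + Real.log ((‖ξ‖ + R₀) ^ 2 + 1) * f z)
  · intro M
    exact ((gM_continuous M ξ).measurable.mul hfm).aestronglyMeasurable
  · exact hi.add ((LOGI_.dens_integrable hf).const_mul _)
  · intro M
    filter_upwards [hne] with z hz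
    rw [norm_mul, Real.norm_eq_abs, Real.norm_eq_abs, abs_of_nonneg (hf.nonneg z), ← add_mul]
    by_cases h : R₀ ≤ ‖z‖
    · rw [hR z h, mul_zero, mul_zero]
    apply mul_le_mul_of_nonneg_right _ (hf.nonneg z)
    have h1 : 0 < ‖ξ - z‖ := norm_pos_iff.2 (sub_ne_zero.2 (Ne.symm hz))
    have h2 : ‖ξ - z‖ ≤ ‖ξ‖ + R₀ := (norm_sub_le ξ z).trans (by linarith [not_le.1 h])
    have h3 := COMP2C_.log_trunc_bound' M h1 h2
    have h4 : 0 ≤ Real.log ((‖ξ‖ + R₀) ^ 2 + 1) := Real.log_nonneg (by nlinarith [norm_nonneg ξ])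
    unfold gM
    rw [abs_div, abs_two]
    linarith
  · filter_upwards [hne] with z hz
    apply Tendsto.mul_const
    have h1 : 0 < ‖ξ - z‖ := norm_pos_iff.2 (sub_ne_zero.2 (Ne.symm hz))
    have h2 := (COMP2C_.log_tendsto h1).div_const 2
    rw [mul_div_cancel_left₀ _ (two_ne_zero)] at h2
    exact h2

end LIM2_

open LIM2_ in
theorem stmt_LIM2 (hE : Stmt_EQC) (hT : Stmt_TAIL) : Stmt_LIM2 := by
  classical
  intro R _ P S v f hf
  have hk := S.good.e_eq v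
  set φ : E (P.e v) → ℝ := fun ξ => (P.e v : ℝ) * ∫ z, Real.log ‖ξ - z‖ * f z with hφ
  have hd : Dens (P.e v) f φ :=
    ⟨hf.meas, hf.nonneg, hf.bdd, hf.supp, hf.mass, fun _ => rfl⟩
  obtain ⟨C, c, hC, hc, hEQ⟩ := hE R P S
  have hee : (0 : ℝ) ≤ P.e v := Nat.cast_nonneg _
  have hexp : Tendsto (fun l => Real.exp (-(c * P.Mx (S.A l).card))) 𝒰 (𝓝 0) := by
    apply Tendsto.mono_left _ hyper_le
    apply Real.tendsto_exp_atBot.comp
    apply tendsto_neg_atTop_atBot.comp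
    exact (tendsto_natCast_atTop_atTop.comp S.tendsto_Mx).const_mul_atTop hc
  have hexpM : Tendsto (fun M : ℕ => C * Real.exp (-(c * M))) atTop (𝓝 0) := by
    have h4 : Tendsto (fun M : ℕ => Real.exp (-(c * M))) atTop (𝓝 0) := by
      apply Real.tendsto_exp_atBot.comp
      apply tendsto_neg_atTop_atBot.comp
      exact tendsto_natCast_atTop_atTop.const_mul_atTop hc
    simpa using h4.const_mul C
  -- pointwise convergence
  have hpt : ∀ ξ : E (P.e v), Tendsto (fun l => S.pV l v ξ) 𝒰 (𝓝 (φ ξ)) := by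
    intro ξ
    rw [Metric.tendsto_nhds]
    intro ε hε
    have h1 := (int_tendsto hk hd ξ).const_mul (P.e v : ℝ)
    rw [Metric.tendsto_nhds] at h1 hexpM
    obtain ⟨M, hM1, hM2⟩ := ((h1 (ε / 3) (by positivity)).and (hexpM (ε / 3) (by positivity))).exists
    have h2 := (avg_tendsto S v hT hf M ξ).const_mul (P.e v : ℝ)
    rw [Metric.tendsto_nhds] at h2
    filter_upwards [h2 (ε / 3) (by positivity), hyper_le (S.eventually_Mx M)] with l h3 h4
    have h5 := (hEQ l M h4 v ξ ξ (by simp)).2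
    rw [Real.dist_eq] at hM1 hM2 h3 ⊢
    rw [sub_zero] at hM2
    have h6 := (le_abs_self (C * Real.exp (-(c * M)))).trans_lt hM2
    have h7 : |S.pV l v ξ - (P.e v : ℝ) * ((S.n l)⁻¹ * ∑ b ∈ S.A l, gM M ξ (S.X l b v))|
        < ε / 3 := lt_of_le_of_lt h5 h6
    have e1 : S.pV l v ξ - φ ξ
        = (S.pV l v ξ - (P.e v : ℝ) * ((S.n l)⁻¹ * ∑ b ∈ S.A l, gM M ξ (S.X l b v)))
          + ((P.e v : ℝ) * ((S.n l)⁻¹ * ∑ b ∈ S.A l, gM M ξ (S.X l b v))
              - (P.e v : ℝ) * ∫ z, gM M ξ z * f z)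
          + ((P.e v : ℝ) * (∫ z, gM M ξ z * f z) - φ ξ) := by ring
    rw [e1]
    refine (abs_add_three _ _ _).trans_lt ?_
    have h8 : |(P.e v : ℝ) * (∫ z, gM M ξ z * f z) - φ ξ| < ε / 3 := hM1
    linarith
  -- Hölder continuity of the limit
  have hhol : ∀ ξ ξ' : E (P.e v), ‖ξ - ξ'‖ ≤ 1 → |φ ξ - φ ξ'| ≤ C * ‖ξ - ξ'‖ ^ c := by
    intro ξ ξ' h
    have h1 := ((hpt ξ).sub (hpt ξ')).abs
    have h2 := (hexp.const_add (‖ξ - ξ'‖ ^ c)).const_mul C
    rw [add_zero] at h2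
    exact le_of_tendsto_of_tendsto' h1 h2 fun l => (hEQ l 0 (Nat.zero_le _) v ξ ξ' h).1
  refine ⟨hd, hf.weak, fun B ε hε => ?_⟩
  -- choice of `δ`
  obtain ⟨δ, hδ0, hδ1, hδ⟩ : ∃ δ : ℝ, 0 < δ ∧ δ ≤ 1 ∧ C * δ ^ c ≤ ε / 5 := by
    have h1 : Tendsto (fun δ : ℝ => C * δ ^ c) (𝓝[>] 0) (𝓝 0) := by
      have h2 : Tendsto (fun δ : ℝ => δ ^ c) (𝓝[>] 0) (𝓝 0) := by
        have := (Real.continuousAt_rpow_const 0 c (Or.inr hc.le)).tendsto
        rw [Real.zero_rpow hc.ne'] at this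
        exact this.mono_left nhdsWithin_le_nhds
      simpa using h2.const_mul C
    have h2 : ∀ᶠ δ : ℝ in 𝓝[>] 0, C * δ ^ c < ε / 5 := h1.eventually_lt_const (by positivity)
    have h3 : ∀ᶠ δ : ℝ in 𝓝[>] 0, δ ∈ Set.Ioc (0 : ℝ) 1 := Ioc_mem_nhdsGT one_pos
    obtain ⟨δ, h4, h5⟩ := (h2.and h3).exists
    exact ⟨δ, h5.1, h5.2, h4.le⟩
  obtain ⟨t, hts, htf, hcov⟩ := (isCompact_closedBall (0 : E (P.e v)) B).finite_cover_balls hδ0
  have hnet : ∀ᶠ l in 𝒰, ∀ ξ' ∈ t, |S.pV l v ξ' - φ ξ'| ≤ ε / 5 := by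
    rw [Filter.eventually_all_finite htf]
    intro ξ' _
    have h1 := hpt ξ'
    rw [Metric.tendsto_nhds] at h1
    filter_upwards [h1 (ε / 5) (by positivity)] with l hl
    rw [Real.dist_eq] at hl
    exact hl.le
  have hex2 : ∀ᶠ l in 𝒰, C * Real.exp (-(c * P.Mx (S.A l).card)) ≤ ε / 5 := by
    have h1 := hexp.const_mul C
    rw [mul_zero] at h1
    filter_upwards [h1.eventually_lt_const (show (0 : ℝ) < ε / 5 by positivity)] with l hl
    exact hl.le
  filter_upwards [hnet, hex2] with l h1 h2 ξ hξ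
  have hmem : ξ ∈ closedBall (0 : E (P.e v)) B := mem_closedBall_zero_iff.2 hξ
  obtain ⟨ξ', hξ't, hξ'⟩ := Set.mem_iUnion₂.1 (hcov hmem)
  rw [mem_ball, dist_eq_norm] at hξ'
  have h3 : ‖ξ - ξ'‖ ≤ 1 := hξ'.le.trans hδ1
  have h4 : C * ‖ξ - ξ'‖ ^ c ≤ ε / 5 := by
    refine le_trans (mul_le_mul_of_nonneg_left ?_ hC) hδ
    exact Real.rpow_le_rpow (norm_nonneg _) hξ'.le hc.le
  have h5 := (hEQ l 0 (Nat.zero_le _) v ξ ξ' h3).1
  have h6 := hhol ξ ξ' h3
  have h7 := h1 ξ' hξ't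
  have e1 : S.pV l v ξ - φ ξ = (S.pV l v ξ - S.pV l v ξ') + (S.pV l v ξ' - φ ξ')
      + -(φ ξ - φ ξ') := by ring
  rw [e1]
  refine (abs_add_three _ _ _).trans ?_
  rw [abs_neg]
  rw [mul_add] at h5
  linarith

end Pool.NS
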