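import Pool.Agent.Work.MP_b29d7f_ns.Interface3

/-! Integrability of `log ‖ξ - z‖` against a bounded density with bounded support. -/

set_option autoImplicit false

open Finset Filter Topology MeasureTheory Metric

namespace Pool.NS

namespace LOGI_

variable {k : ℕ}

lemma nontriv (hk : k = 1 ∨ k = 2) : Nontrivial (E k) := by
  rcases hk with rfl | rfl <;> infer_instance

/-- `log ‖w‖` is integrable on balls -/
lemma log_ball (hk : k = 1 ∨ k = 2) (r : ℝ) :
    IntegrableOn (fun w : E k => Real.log ‖w‖) (ball 0 r) volume := by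
  have := nontriv hk
  rw [integrableOn_fun_norm_addHaar volume (f := Real.log)]
  rcases le_or_gt r 0 with hr | hr
  · rw [Set.Ioo_eq_empty (not_lt.2 hr)]; exact integrableOn_empty
  have h1 : IntegrableOn Real.log (Set.Ioo 0 r) := by
    have h2 := (intervalIntegral.intervalIntegrable_log' (a := 0) (b := r)).1
    exact h2.mono_set Set.Ioo_subset_Ioc_self
  simp only [smul_eq_mul]
  apply Integrable.bdd_mul (c := r ^ (Module.finrank ℝ (E k) - 1)) h1
  · exact (continuous_id.pow _).aestronglyMeasurable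
  · refine (ae_restrict_iff' measurableSet_Ioo).2 (Filter.Eventually.of_forall ?_)
    intro y hy
    rw [Real.norm_eq_abs, abs_of_nonneg (pow_nonneg hy.1.le _)]
    exact pow_le_pow_left₀ hy.1.le hy.2.le _

lemma norm_bounds {f φ : E k → ℝ} (hf : Dens k f φ) :
    ∃ B R₀ : ℝ, 0 ≤ B ∧ 0 ≤ R₀ ∧ (∀ z, f z ≤ B) ∧ ∀ z, R₀ ≤ ‖z‖ → f z = 0 := by
  obtain ⟨B, hB⟩ := hf.bdd
  obtain ⟨R₀, hR⟩ := hf.supp
  exact ⟨max B 0, max R₀ 0, le_max_right _ _, le_max_right _ _,
    fun z => (hB z).trans (le_max_left _ _), fun z hz => hR z ((le_max_left _ _).trans hz)⟩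

lemma dens_integrable {f φ : E k → ℝ} (hf : Dens k f φ) : Integrable f := by
  by_contra h
  have := hf.mass
  rw [integral_undef h] at this
  exact zero_ne_one this

/-- uniform bound for `∫ |log ‖ξ - z‖| f z` -/
lemma abs_log_bound (hk : k = 1 ∨ k = 2) {f φ : E k → ℝ} (hf : Dens k f φ) (R' : ℝ) :
    ∃ K : ℝ, 0 ≤ K ∧ ∀ ξ : E k, ‖ξ‖ ≤ R' → Integrable (fun z => |Real.log ‖ξ - z‖| * f z) ∧
      ∫ z, |Real.log ‖ξ - z‖| * f z ≤ K := by
  obtain ⟨B, R₀, hB0, hR0, hB, hR⟩ := norm_bounds hf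
  set ρ : ℝ := R₀ + R' + 1 with hρ
  set g : E k → ℝ := fun w => B * (ball (0 : E k) ρ).indicator (fun w => |Real.log ‖w‖|) w with hg
  have hgi : Integrable g := by
    apply Integrable.const_mul
    rw [integrable_indicator_iff measurableSet_ball]
    exact (log_ball hk ρ).abs
  have hg0 : ∀ w, 0 ≤ g w := fun w =>
    mul_nonneg hB0 (Set.indicator_nonneg (fun _ _ => abs_nonneg _) _)
  refine ⟨∫ w, g w, integral_nonneg hg0, fun ξ hξ => ?_⟩
  have hgξ : Integrable (fun z => g (ξ - z)) := hgi.comp_sub_left ξ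
  have hle : ∀ z, |Real.log ‖ξ - z‖| * f z ≤ g (ξ - z) := by
    intro z
    by_cases hz : R₀ ≤ ‖z‖
    · rw [hR z hz, mul_zero]; exact hg0 _
    · have h1 : ξ - z ∈ ball (0 : E k) ρ := by
        rw [mem_ball_zero_iff]
        have := norm_sub_le ξ z
        linarith [not_le.1 hz]
      rw [hg]
      simp only
      rw [Set.indicator_of_mem h1, mul_comm]
      exact mul_le_mul_of_nonneg_right (hB z) (abs_nonneg _)
  have hmeas : AEStronglyMeasurable (fun z => |Real.log ‖ξ - z‖| * f z) := by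
    have hfm := hf.meas
    apply Measurable.aestronglyMeasurable
    fun_prop
  have hint : Integrable (fun z => |Real.log ‖ξ - z‖| * f z) := by
    apply hgξ.mono' hmeas
    filter_upwards with z
    rw [Real.norm_eq_abs, abs_of_nonneg (mul_nonneg (abs_nonneg _) (hf.nonneg z))]
    exact hle z
  refine ⟨hint, ?_⟩
  calc ∫ z, |Real.log ‖ξ - z‖| * f z ≤ ∫ z, g (ξ - z) := integral_mono hint hgξ hle
    _ = ∫ w, g w := integral_sub_left_eq_self g volume ξ

/-- integrability of `|log ‖σ z - z'‖| f(z) f(z')` -/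
lemma prod_log_integrable (hk : k = 1 ∨ k = 2) {f φ : E k → ℝ} (hf : Dens k f φ)
    (σ : E k → E k) (hσ : Measurable σ) (hb : ∀ R : ℝ, ∃ R' : ℝ, ∀ z, ‖z‖ ≤ R → ‖σ z‖ ≤ R') :
    Integrable (fun p : E k × E k => |Real.log ‖σ p.1 - p.2‖| * (f p.1 * f p.2))
      (volume.prod volume) := by
  obtain ⟨B, R₀, hB0, hR0, hB, hR⟩ := norm_bounds hf
  obtain ⟨R', hR'⟩ := hb R₀
  obtain ⟨K, hK0, hK⟩ := abs_log_bound hk hf R'
  have hfm := hf.meas
  have hmeas : AEStronglyMeasurable
      (fun p : E k × E k => |Real.log ‖σ p.1 - p.2‖| * (f p.1 * f p.2)) (volume.prod volume) := by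
    apply Measurable.aestronglyMeasurable
    fun_prop
  rw [integrable_prod_iff hmeas]
  have hrw : ∀ z z', |Real.log ‖σ z - z'‖| * (f z * f z') = f z * (|Real.log ‖σ z - z'‖| * f z') :=
    fun z z' => by ring
  constructor
  · filter_upwards with z
    by_cases hz : R₀ ≤ ‖z‖
    · simp [hR z hz]
    · simp only [hrw]
      exact ((hK (σ z) (hR' z (not_le.1 hz).le)).1).const_mul _
  · apply ((dens_integrable hf).const_mul K).mono' hmeas.norm.integral_prod_right'
    filter_upwards with z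
    simp only [Real.norm_eq_abs]
    rw [abs_of_nonneg (integral_nonneg fun _ => abs_nonneg _)]
    by_cases hz : R₀ ≤ ‖z‖
    · simp [hR z hz]
    · have h1 : ∀ z', |(|Real.log ‖σ z - z'‖| * (f z * f z'))| = f z * (|Real.log ‖σ z - z'‖| * f z') := by
        intro z'
        rw [abs_of_nonneg (mul_nonneg (abs_nonneg _) (mul_nonneg (hf.nonneg _) (hf.nonneg _)))]
        ring
      simp only [h1]
      rw [integral_const_mul, mul_comm]
      exact mul_le_mul_of_nonneg_right (hK (σ z) (hR' z (not_le.1 hz).le)).2 (hf.nonneg z)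

end LOGI_

end Pool.NS
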