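import Pool.Agent.Work.MP_b29d7f_ns_helper31.LogInt

set_option autoImplicit false

open Finset Filter Topology MeasureTheory Metric

namespace Pool.NS

namespace COMP2C_

variable {k : ℕ}

/-! ### the reflection -/

lemma norm_uv (U : E k ≃ₗᵢ[ℝ] E k) (i₀ : Fin k) : ‖uv U i₀‖ = 1 := by
  unfold uv
  rw [LinearIsometryEquiv.norm_map]
  simp

lemma U_uv (U : E k ≃ₗᵢ[ℝ] E k) (i₀ : Fin k) : U (uv U i₀) = EuclideanSpace.single i₀ 1 := by
  unfold uv
  rw [LinearIsometryEquiv.apply_symm_apply]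

lemma inner_uv (U : E k ≃ₗᵢ[ℝ] E k) (i₀ : Fin k) (z : E k) : inner ℝ (uv U i₀) z = (U z) i₀ := by
  rw [← U.inner_map_map, U_uv, EuclideanSpace.inner_single_left]
  simp

lemma rfx_inner (u : E k) (hu : ‖u‖ = 1) (a : ℝ) (z : E k) :
    inner ℝ u (rfx u a z) = 2 * a - inner ℝ u z := by
  unfold rfx
  rw [inner_sub_right, real_inner_smul_right, real_inner_self_eq_norm_sq, hu]
  ring

lemma rfx_rfx (u : E k) (hu : ‖u‖ = 1) (a : ℝ) (z : E k) : rfx u a (rfx u a z) = z := by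
  have h := rfx_inner u hu a z
  unfold rfx at h ⊢
  rw [h, sub_sub, ← add_smul]
  have : 2 * (inner ℝ u z - a) + 2 * (2 * a - inner ℝ u z - a) = 0 := by ring
  rw [this, zero_smul, sub_zero]

lemma norm_rfx_sub (u : E k) (hu : ‖u‖ = 1) (a : ℝ) (z z' : E k) :
    ‖rfx u a z - rfx u a z'‖ = ‖z - z'‖ := by
  have h : rfx u a z - rfx u a z' = (z - z') - (2 * inner ℝ u (z - z')) • u := by
    unfold rfx
    rw [inner_sub_right]
    have : (2 * (inner ℝ u z - inner ℝ u z') : ℝ) • u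
        = (2 * (inner ℝ u z - a)) • u - (2 * (inner ℝ u z' - a)) • u := by
      rw [← sub_smul]; congr 1; ring
    rw [this]; abel
  rw [h]
  have h2 : ‖(z - z') - (2 * inner ℝ u (z - z')) • u‖ ^ 2 = ‖z - z'‖ ^ 2 := by
    rw [norm_sub_sq_real, real_inner_smul_right, norm_smul, hu, real_inner_comm, Real.norm_eq_abs,
      mul_one, sq_abs]
    ring
  exact (pow_left_inj₀ (norm_nonneg _) (norm_nonneg _) two_ne_zero).1 h2

/-- distance of a point and a reflected point -/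
lemma norm_sub_rfx (u : E k) (hu : ‖u‖ = 1) (a : ℝ) (z z' : E k) :
    ‖z - rfx u a z'‖ = ‖rfx u a z - z'‖ := by
  rw [← norm_rfx_sub u hu a z (rfx u a z'), rfx_rfx u hu]

lemma measurable_rfx (u : E k) (a : ℝ) : Measurable (rfx u a) := by
  have : Continuous (rfx u a) := by
    unfold rfx
    fun_prop
  exact this.measurable

lemma norm_rfx_le (u : E k) (hu : ‖u‖ = 1) (a : ℝ) (z : E k) :
    ‖rfx u a z‖ ≤ 3 * ‖z‖ + 2 * |a| := by
  unfold rfx
  have h1 := norm_sub_le z ((2 * (inner ℝ u z - a)) • u)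
  have h2 : ‖(2 * (inner ℝ u z - a)) • u‖ ≤ 2 * (‖z‖ + |a|) := by
    rw [norm_smul, hu, mul_one, Real.norm_eq_abs, abs_mul, abs_two]
    apply mul_le_mul_of_nonneg_left _ (by norm_num)
    have h3 := abs_real_inner_le_norm u z
    rw [hu, one_mul] at h3
    have h4 := abs_sub (inner ℝ u z) a
    linarith
  linarith

/-! ### measurability -/

lemma measurableSet_grd (U : E k ≃ₗᵢ[ℝ] E k) (i₀ : Fin k) (a : ℝ) (p : ℕ)
    (F : Finset (Fin k → ℤ)) : MeasurableSet (grd U i₀ a p F) := by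
  have h : Measurable fun z : E k => (fun i => ⌊(2 : ℝ) ^ p * ((U z) i - if i = i₀ then a else 0)⌋) := by
    apply measurable_pi_lambda
    intro i
    apply Int.measurable_floor.comp
    have : Continuous fun z : E k => (2 : ℝ) ^ p * ((U z) i - if i = i₀ then a else 0) := by fun_prop
    exact this.measurable
  exact h F.measurableSet

lemma measurableSet_mgr (U : E k ≃ₗᵢ[ℝ] E k) (i₀ : Fin k) (a : ℝ) (p : ℕ)
    (F : Finset (Fin k → ℤ)) : MeasurableSet (mgr U i₀ a p F) := by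
  have h : Measurable fun z : E k => (fun i => if i = i₀ then -⌊(2 : ℝ) ^ p * ((U z) i₀ - a)⌋ - 1
    else ⌊(2 : ℝ) ^ p * (U z) i⌋) := by
    apply measurable_pi_lambda
    intro i
    by_cases hi : i = i₀
    · simp only [hi, if_true]
      have h1 : Continuous fun z : E k => (2 : ℝ) ^ p * ((U z) i₀ - a) := by fun_prop
      exact ((Int.measurable_floor.comp h1.measurable).neg).sub_const 1
    · simp only [hi, if_false]
      have h1 : Continuous fun z : E k => (2 : ℝ) ^ p * (U z) i := by fun_prop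
      exact Int.measurable_floor.comp h1.measurable
  exact h F.measurableSet

lemma measurable_trq (U : E k ≃ₗᵢ[ℝ] E k) (i₀ : Fin k) (a : ℝ) (p q : ℕ)
    (F : Finset (Fin k → ℤ)) : Measurable (trq U i₀ a p q F) := by
  unfold trq
  apply Measurable.ite ((measurableSet_grd U i₀ a p F).union (measurableSet_mgr U i₀ a p F)) _
    measurable_id
  have h1 : Continuous fun z : E k => (2 : ℝ) ^ q * ((U z) i₀ - a) := by fun_prop
  have h2 : Measurable fun z : E k => ⌊(2 : ℝ) ^ q * ((U z) i₀ - a)⌋ :=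
    Int.measurable_floor.comp h1.measurable
  have h3 : Measurable fun z : E k => (⌊(2 : ℝ) ^ q * ((U z) i₀ - a)⌋ : ℝ) :=
    measurable_from_top.comp h2
  apply measurable_id.sub
  apply Measurable.smul_const
  fun_prop

open scoped Classical in
lemma measurable_swp (u : E k) (a : ℝ) {Q : Set (E k)} (hQ : MeasurableSet Q) :
    Measurable (swp u a Q) := by
  unfold swp
  apply Measurable.ite _ (measurable_rfx u a) measurable_id
  exact hQ.union (measurable_rfx u a hQ)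

/-! ### null sets -/

lemma ae_coord_ne (U : E k ≃ₗᵢ[ℝ] E k) (i₀ : Fin k) (t : ℝ) : ∀ᵐ z : E k, (U z) i₀ ≠ t := by
  have hU : MeasurePreserving U volume volume := U.measurePreserving
  have h2 : MeasurePreserving (fun z : E k => WithLp.ofLp z) volume volume :=
    PiLp.volume_preserving_ofLp (Fin k)
  have h3 := h2.comp hU
  have h4 : ∀ᵐ y : Fin k → ℝ, y i₀ ≠ t := by
    have := Measure.pi_hyperplane (fun _ : Fin k => (volume : Measure ℝ)) i₀ t
    exact measure_eq_zero_iff_ae_notMem.1 this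
  exact h3.quasiMeasurePreserving.ae h4

lemma ae_not_int (U : E k ≃ₗᵢ[ℝ] E k) (i₀ : Fin k) (a : ℝ) (p : ℕ) :
    ∀ᵐ z : E k, ∀ n : ℤ, (2 : ℝ) ^ p * ((U z) i₀ - a) ≠ n := by
  rw [ae_all_iff]
  intro n
  filter_upwards [ae_coord_ne U i₀ ((n : ℝ) / 2 ^ p + a)] with z hz h
  apply hz
  rw [← h]
  field_simp
  ring

/-! ### convergence of `trq` -/

lemma coord_rfx_same (U : E k ≃ₗᵢ[ℝ] E k) (i₀ : Fin k) (a : ℝ) (z : E k) :
    (U (rfx (uv U i₀) a z)) i₀ - a = -((U z) i₀ - a) := by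
  have h := rfx_inner (uv U i₀) (norm_uv U i₀) a z
  rw [inner_uv, inner_uv] at h
  rw [h]; ring

lemma coord_rfx_ne (U : E k ≃ₗᵢ[ℝ] E k) (i₀ : Fin k) (a : ℝ) (z : E k) {i : Fin k} (hi : i ≠ i₀) :
    (U (rfx (uv U i₀) a z)) i = (U z) i := by
  unfold rfx
  rw [map_sub, map_smul, U_uv]
  simp [hi]

lemma mem_mgr_iff (U : E k ≃ₗᵢ[ℝ] E k) (i₀ : Fin k) (a : ℝ) (p : ℕ) (F : Finset (Fin k → ℤ))
    (z : E k) (hz : ∀ n : ℤ, (2 : ℝ) ^ p * ((U z) i₀ - a) ≠ n) :
    z ∈ mgr U i₀ a p F ↔ rfx (uv U i₀) a z ∈ grd U i₀ a p F := by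
  unfold mgr grd
  have : (fun i => if i = i₀ then -⌊(2 : ℝ) ^ p * ((U z) i₀ - a)⌋ - 1
      else ⌊(2 : ℝ) ^ p * (U z) i⌋)
      = fun i => ⌊(2 : ℝ) ^ p * ((U (rfx (uv U i₀) a z)) i - if i = i₀ then a else 0)⌋ := by
    funext i
    by_cases hi : i = i₀
    · subst hi
      simp only [if_true]
      rw [coord_rfx_same, mul_neg, Int.floor_neg]
      have h1 : ⌈(2 : ℝ) ^ p * ((U z) i - a)⌉ = ⌊(2 : ℝ) ^ p * ((U z) i - a)⌋ + 1 := by
        rw [Int.ceil_eq_iff]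
        constructor
        · push_cast
          have := Int.floor_le ((2 : ℝ) ^ p * ((U z) i - a))
          have h2 := hz ⌊(2 : ℝ) ^ p * ((U z) i - a)⌋
          have h3 := lt_of_le_of_ne this (Ne.symm h2)
          linarith
        · push_cast
          exact (Int.lt_floor_add_one _).le
      rw [h1]; ring
    · simp only [if_neg hi]
      rw [coord_rfx_ne U i₀ a z hi, sub_zero]
  simp only [Set.mem_ofPred_eq, this]

lemma scalar_bound (q : ℕ) (x : ℝ) : |(2 * (⌊(2 : ℝ) ^ q * x⌋ : ℝ) + 1) / 2 ^ q - 2 * x| ≤ (1 / 2) ^ q := by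
  have h1 := Int.floor_le ((2 : ℝ) ^ q * x)
  have h2 := Int.lt_floor_add_one ((2 : ℝ) ^ q * x)
  have h3 : (0 : ℝ) < 2 ^ q := by positivity
  have h4 : (2 * (⌊(2 : ℝ) ^ q * x⌋ : ℝ) + 1) / 2 ^ q - 2 * x
      = (2 * (⌊(2 : ℝ) ^ q * x⌋ : ℝ) + 1 - 2 * ((2 : ℝ) ^ q * x)) / 2 ^ q := by
    field_simp
  rw [h4, abs_div, abs_of_pos h3, one_div_pow]
  apply div_le_div_of_nonneg_right _ h3.le
  rw [abs_le]
  constructor <;> linarith

lemma trq_tendsto (U : E k ≃ₗᵢ[ℝ] E k) (i₀ : Fin k) (a : ℝ) (p : ℕ) (F : Finset (Fin k → ℤ))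
    (z : E k) (hz : ∀ n : ℤ, (2 : ℝ) ^ p * ((U z) i₀ - a) ≠ n) :
    Tendsto (fun q => trq U i₀ a p q F z) atTop (𝓝 (swp (uv U i₀) a (grd U i₀ a p F) z)) := by
  have hiff : z ∈ grd U i₀ a p F ∪ mgr U i₀ a p F ↔
      (z ∈ grd U i₀ a p F ∨ rfx (uv U i₀) a z ∈ grd U i₀ a p F) := by
    rw [Set.mem_union, mem_mgr_iff U i₀ a p F z hz]
  by_cases h : z ∈ grd U i₀ a p F ∨ rfx (uv U i₀) a z ∈ grd U i₀ a p F
  · have h' := hiff.2 h
    unfold trq swp
    simp only [if_pos h', if_pos h]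
    unfold rfx
    rw [inner_uv]
    apply Tendsto.const_sub
    apply Tendsto.smul_const
    rw [tendsto_iff_norm_sub_tendsto_zero]
    apply squeeze_zero (fun _ => norm_nonneg _) (fun q => scalar_bound q _)
    exact tendsto_pow_atTop_nhds_zero_of_lt_one (by norm_num) (by norm_num)
  · have h' := fun h0 => h (hiff.1 h0)
    unfold trq swp
    simp only [if_neg h', if_neg h]
    exact tendsto_const_nhds

lemma norm_trq_le (U : E k ≃ₗᵢ[ℝ] E k) (i₀ : Fin k) (a : ℝ) (p q : ℕ) (F : Finset (Fin k → ℤ))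
    (z : E k) : ‖trq U i₀ a p q F z‖ ≤ 3 * ‖z‖ + 2 * |a| + 1 := by
  unfold trq
  split_ifs
  · have h1 := norm_sub_le z (((2 * (⌊(2 : ℝ) ^ q * ((U z) i₀ - a)⌋ : ℝ) + 1) / 2 ^ q) • uv U i₀)
    have h2 : ‖((2 * (⌊(2 : ℝ) ^ q * ((U z) i₀ - a)⌋ : ℝ) + 1) / 2 ^ q) • uv U i₀‖
        ≤ 2 * (‖z‖ + |a|) + 1 := by
      rw [norm_smul, norm_uv, mul_one, Real.norm_eq_abs]
      have h3 := scalar_bound q ((U z) i₀ - a)
      have h4 : ((1 : ℝ) / 2) ^ q ≤ 1 := pow_le_one₀ (by norm_num) (by norm_num)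
      have h5 : |(U z) i₀ - a| ≤ ‖z‖ + |a| := by
        have h6 := abs_real_inner_le_norm (uv U i₀) z
        rw [norm_uv, one_mul, inner_uv] at h6
        have h7 := abs_sub ((U z) i₀) a
        linarith
      have h8 := abs_sub_abs_le_abs_sub ((2 * (⌊(2 : ℝ) ^ q * ((U z) i₀ - a)⌋ : ℝ) + 1) / 2 ^ q)
        (2 * ((U z) i₀ - a))
      rw [abs_mul, abs_two] at h8
      linarith
    linarith
  · have := norm_nonneg z
    have := abs_nonneg a
    linarith

/-! ### the truncated energy -/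

/-- integrand of the truncated energy -/
noncomputable def Gm (f : E k → ℝ) (M : ℕ) (τ : E k → E k) (p : E k × E k) : ℝ :=
  (Real.log (‖τ p.1 - τ p.2‖ ^ 2 + Real.exp (-(M : ℝ)) ^ 2)
    - Real.log (‖p.1 - p.2‖ ^ 2 + Real.exp (-(M : ℝ)) ^ 2)) * (f p.1 * f p.2)

lemma log_trunc_bound (M : ℕ) {w D : ℝ} (hw : 0 ≤ w) (hD : w ≤ D) :
    |Real.log (w ^ 2 + Real.exp (-(M : ℝ)) ^ 2)| ≤ 2 * M + Real.log (D ^ 2 + 1) := by
  have he : 0 < Real.exp (-(M : ℝ)) := Real.exp_pos _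
  have he1 : Real.exp (-(M : ℝ)) ≤ 1 := by
    rw [Real.exp_le_one_iff]; simp
  have h1 : Real.log (Real.exp (-(M : ℝ)) ^ 2) ≤ Real.log (w ^ 2 + Real.exp (-(M : ℝ)) ^ 2) :=
    Real.log_le_log (by positivity) (by nlinarith)
  rw [Real.log_pow, Real.log_exp] at h1
  have h2 : Real.log (w ^ 2 + Real.exp (-(M : ℝ)) ^ 2) ≤ Real.log (D ^ 2 + 1) :=
    Real.log_le_log (by positivity) (by nlinarith)
  have h3 : 0 ≤ Real.log (D ^ 2 + 1) := Real.log_nonneg (by nlinarith)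
  have h4 : (0 : ℝ) ≤ M := Nat.cast_nonneg _
  push_cast at h1
  rw [abs_le]
  constructor <;> linarith

lemma log_trunc_bound' (M : ℕ) {w D : ℝ} (hw : 0 < w) (hD : w ≤ D) :
    |Real.log (w ^ 2 + Real.exp (-(M : ℝ)) ^ 2)| ≤ 2 * |Real.log w| + Real.log (D ^ 2 + 1) := by
  have he : 0 < Real.exp (-(M : ℝ)) := Real.exp_pos _
  have he1 : Real.exp (-(M : ℝ)) ≤ 1 := by
    rw [Real.exp_le_one_iff]; simp
  have h1 : Real.log (w ^ 2) ≤ Real.log (w ^ 2 + Real.exp (-(M : ℝ)) ^ 2) :=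
    Real.log_le_log (by positivity) (by nlinarith)
  rw [Real.log_pow] at h1
  have h2 : Real.log (w ^ 2 + Real.exp (-(M : ℝ)) ^ 2) ≤ Real.log (D ^ 2 + 1) :=
    Real.log_le_log (by positivity) (by nlinarith)
  have h3 : 0 ≤ Real.log (D ^ 2 + 1) := Real.log_nonneg (by nlinarith)
  have h4 := neg_abs_le (Real.log w)
  have h5 := abs_nonneg (Real.log w)
  push_cast at h1
  rw [abs_le]
  constructor <;> linarith

lemma measurable_Gm {f : E k → ℝ} (hf : Measurable f) (M : ℕ) {τ : E k → E k}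
    (hτ : Measurable τ) : Measurable (Gm f M τ) := by
  unfold Gm
  fun_prop

/-- uniform bound of the integrand -/
lemma Gm_bound {f φ : E k → ℝ} (hf : Dens k f φ) {R₀ D : ℝ} (hR : ∀ z, R₀ ≤ ‖z‖ → f z = 0) (M : ℕ)
    (τ : E k → E k) (hτ : ∀ z, ‖z‖ ≤ R₀ → ‖τ z‖ ≤ D) (hD : R₀ ≤ D) (p : E k × E k) :
    ‖Gm f M τ p‖ ≤ (2 * (2 * M + Real.log ((2 * D) ^ 2 + 1))) * (f p.1 * f p.2) := by
  have hff : 0 ≤ f p.1 * f p.2 := mul_nonneg (hf.nonneg _) (hf.nonneg _)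
  unfold Gm
  rw [Real.norm_eq_abs, abs_mul, abs_of_nonneg hff]
  by_cases h1 : R₀ ≤ ‖p.1‖
  · simp [hR _ h1]
  by_cases h2 : R₀ ≤ ‖p.2‖
  · simp [hR _ h2]
  apply mul_le_mul_of_nonneg_right _ hff
  have h1' := (not_le.1 h1).le
  have h2' := (not_le.1 h2).le
  have h3 : ‖τ p.1 - τ p.2‖ ≤ 2 * D := by
    have := norm_sub_le (τ p.1) (τ p.2)
    have := hτ _ h1'
    have := hτ _ h2'
    linarith
  have h4 : ‖p.1 - p.2‖ ≤ 2 * D := by
    have := norm_sub_le p.1 p.2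
    linarith
  have h5 := log_trunc_bound M (norm_nonneg _) h3
  have h6 := log_trunc_bound M (norm_nonneg _) h4
  have h7 := abs_sub (Real.log (‖τ p.1 - τ p.2‖ ^ 2 + Real.exp (-(M : ℝ)) ^ 2))
    (Real.log (‖p.1 - p.2‖ ^ 2 + Real.exp (-(M : ℝ)) ^ 2))
  linarith

lemma ff_integrable {f φ : E k → ℝ} (hf : Dens k f φ) :
    Integrable (fun p : E k × E k => f p.1 * f p.2) (volume.prod volume) :=
  (LOGI_.dens_integrable hf).mul_prod (LOGI_.dens_integrable hf)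

lemma Gm_integrable {f φ : E k → ℝ} (hf : Dens k f φ) {R₀ D : ℝ} (hR : ∀ z, R₀ ≤ ‖z‖ → f z = 0)
    (M : ℕ) (τ : E k → E k) (hτm : Measurable τ) (hτ : ∀ z, ‖z‖ ≤ R₀ → ‖τ z‖ ≤ D) (hD : R₀ ≤ D) :
    Integrable (Gm f M τ) (volume.prod volume) :=
  ((ff_integrable hf).const_mul _).mono' (measurable_Gm hf.meas M hτm).aestronglyMeasurable
    (Filter.Eventually.of_forall fun p => Gm_bound hf hR M τ hτ hD p)

lemma dIM_eq {f φ : E k → ℝ} (hf : Dens k f φ) {R₀ D : ℝ} (hR : ∀ z, R₀ ≤ ‖z‖ → f z = 0)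
    (M : ℕ) (τ : E k → E k) (hτm : Measurable τ) (hτ : ∀ z, ‖z‖ ≤ R₀ → ‖τ z‖ ≤ D) (hD : R₀ ≤ D) :
    dIM f M τ = ∫ p, Gm f M τ p ∂(volume.prod volume) := by
  rw [integral_prod _ (Gm_integrable hf hR M τ hτm hτ hD)]
  rfl

/-- the limit `q → ∞` -/
lemma dIM_tendsto {f φ : E k → ℝ} (hf : Dens k f φ) (U : E k ≃ₗᵢ[ℝ] E k) (i₀ : Fin k) (a : ℝ)
    (p : ℕ) (F : Finset (Fin k → ℤ)) (M : ℕ) {R₀ D : ℝ} (hR : ∀ z, R₀ ≤ ‖z‖ → f z = 0)
    (hDD : 3 * R₀ + 2 * |a| + 1 ≤ D) (hR0 : 0 ≤ R₀) :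
    Tendsto (fun q => dIM f M (trq U i₀ a p q F)) atTop
      (𝓝 (∫ p', Gm f M (swp (uv U i₀) a (grd U i₀ a p F)) p' ∂(volume.prod volume))) := by
  have hD : R₀ ≤ D := by linarith [abs_nonneg a]
  have hb : ∀ q z, ‖z‖ ≤ R₀ → ‖trq U i₀ a p q F z‖ ≤ D := fun q z hz => by
    have := norm_trq_le U i₀ a p q F z
    linarith
  have h1 : (fun q => dIM f M (trq U i₀ a p q F))
      = fun q => ∫ p', Gm f M (trq U i₀ a p q F) p' ∂(volume.prod volume) := by
    funext q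
    exact dIM_eq hf hR M _ (measurable_trq U i₀ a p q F) (hb q) hD
  rw [h1]
  apply tendsto_integral_of_dominated_convergence
    (fun p' => (2 * (2 * M + Real.log ((2 * D) ^ 2 + 1))) * (f p'.1 * f p'.2))
  · intro q
    exact (measurable_Gm hf.meas M (measurable_trq U i₀ a p q F)).aestronglyMeasurable
  · exact (ff_integrable hf).const_mul _
  · intro q
    exact Filter.Eventually.of_forall fun p' => Gm_bound hf hR M _ (hb q) hD p'
  · have hz := ae_not_int U i₀ a p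
    have hz1 : ∀ᵐ p' : E k × E k ∂(volume.prod volume), ∀ n : ℤ,
        (2 : ℝ) ^ p * ((U p'.1) i₀ - a) ≠ n := Measure.quasiMeasurePreserving_fst.ae hz
    have hz2 : ∀ᵐ p' : E k × E k ∂(volume.prod volume), ∀ n : ℤ,
        (2 : ℝ) ^ p * ((U p'.2) i₀ - a) ≠ n := Measure.quasiMeasurePreserving_snd.ae hz
    filter_upwards [hz1, hz2] with p' h1 h2
    unfold Gm
    apply Tendsto.mul_const
    apply Tendsto.sub_const
    have h3 := ((trq_tendsto U i₀ a p F p'.1 h1).sub (trq_tendsto U i₀ a p F p'.2 h2)).norm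
    have h4 := (h3.pow 2).add_const (Real.exp (-(M : ℝ)) ^ 2)
    apply Tendsto.log h4
    have := Real.exp_pos (-(M : ℝ))
    positivity

/-! ### the limit `M → ∞` -/

lemma swp_cases (u : E k) (a : ℝ) (Q : Set (E k)) (z : E k) :
    swp u a Q z = z ∨ swp u a Q z = rfx u a z := by
  unfold swp
  split_ifs
  · right; rfl
  · left; rfl

lemma norm_swp_le (u : E k) (hu : ‖u‖ = 1) (a : ℝ) (Q : Set (E k)) (z : E k) :
    ‖swp u a Q z‖ ≤ 3 * ‖z‖ + 2 * |a| + 1 := by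
  rcases swp_cases u a Q z with h | h <;> rw [h]
  · have := norm_nonneg z
    have := abs_nonneg a
    linarith
  · have := norm_rfx_le u hu a z
    linarith

lemma norm_swp_sub (u : E k) (hu : ‖u‖ = 1) (a : ℝ) (Q : Set (E k)) (z z' : E k) :
    ‖swp u a Q z - swp u a Q z'‖ = ‖z - z'‖ ∨ ‖swp u a Q z - swp u a Q z'‖ = ‖rfx u a z - z'‖ := by
  rcases swp_cases u a Q z with h | h <;> rcases swp_cases u a Q z' with h' | h' <;> rw [h, h']
  · left; rfl
  · right; exact norm_sub_rfx u hu a z z'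
  · right; rfl
  · left; exact norm_rfx_sub u hu a z z'

lemma ae_ne_pair (hk : k = 1 ∨ k = 2) (u : E k) (a : ℝ) :
    ∀ᵐ p : E k × E k ∂(volume.prod volume), p.1 ≠ p.2 ∧ rfx u a p.1 ≠ p.2 := by
  have := LOGI_.nontriv hk
  have h1 : MeasurableSet {p : E k × E k | p.1 ≠ p.2 ∧ rfx u a p.1 ≠ p.2} := by
    apply MeasurableSet.inter
    · exact (measurableSet_eq_fun measurable_fst measurable_snd).compl
    · exact (measurableSet_eq_fun ((measurable_rfx u a).comp measurable_fst) measurable_snd).compl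
  rw [Measure.ae_prod_iff_ae_ae h1]
  filter_upwards with z
  have h2 : ∀ w : E k, ∀ᵐ z' : E k, w ≠ z' := by
    intro w
    have : ∀ᵐ z' : E k, z' ≠ w := by
      rw [ae_iff]; simp
    filter_upwards [this] with z' hz' h
    exact hz' h.symm
  filter_upwards [h2 z, h2 (rfx u a z)] with z' h3 h4
  exact ⟨h3, h4⟩

/-- the dominating function -/
lemma Gm_bound' {f φ : E k → ℝ} (hf : Dens k f φ) {R₀ D : ℝ} (hR : ∀ z, R₀ ≤ ‖z‖ → f z = 0) (M : ℕ)
    (u : E k) (hu : ‖u‖ = 1) (a : ℝ) (Q : Set (E k))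
    (hDD : 3 * R₀ + 2 * |a| + 1 ≤ D) (hR0 : 0 ≤ R₀) (p : E k × E k) (hp : p.1 ≠ p.2)
    (hp' : rfx u a p.1 ≠ p.2) :
    ‖Gm f M (swp u a Q) p‖ ≤ 2 * Real.log ((2 * D) ^ 2 + 1) * (f p.1 * f p.2)
      + 4 * (|Real.log ‖p.1 - p.2‖| * (f p.1 * f p.2))
      + 2 * (|Real.log ‖rfx u a p.1 - p.2‖| * (f p.1 * f p.2)) := by
  have hff : 0 ≤ f p.1 * f p.2 := mul_nonneg (hf.nonneg _) (hf.nonneg _)
  have hD : R₀ ≤ D := by linarith [abs_nonneg a]
  unfold Gm
  rw [Real.norm_eq_abs, abs_mul, abs_of_nonneg hff]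
  by_cases h1 : R₀ ≤ ‖p.1‖
  · simp [hR _ h1]
  by_cases h2 : R₀ ≤ ‖p.2‖
  · simp [hR _ h2]
  have h1' := (not_le.1 h1).le
  have h2' := (not_le.1 h2).le
  have h3 : ‖swp u a Q p.1 - swp u a Q p.2‖ ≤ 2 * D := by
    have := norm_sub_le (swp u a Q p.1) (swp u a Q p.2)
    have := norm_swp_le u hu a Q p.1
    have := norm_swp_le u hu a Q p.2
    linarith
  have h4 : ‖p.1 - p.2‖ ≤ 2 * D := by
    have := norm_sub_le p.1 p.2
    linarith
  have h5 : 0 < ‖p.1 - p.2‖ := norm_pos_iff.2 (sub_ne_zero.2 hp)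
  have h6 : 0 < ‖rfx u a p.1 - p.2‖ := norm_pos_iff.2 (sub_ne_zero.2 hp')
  have h7 := log_trunc_bound' M h5 h4
  have h8 : |Real.log (‖swp u a Q p.1 - swp u a Q p.2‖ ^ 2 + Real.exp (-(M : ℝ)) ^ 2)|
      ≤ 2 * |Real.log ‖p.1 - p.2‖| + 2 * |Real.log ‖rfx u a p.1 - p.2‖|
        + Real.log ((2 * D) ^ 2 + 1) := by
    rcases norm_swp_sub u hu a Q p.1 p.2 with h | h
    · rw [h] at h3 ⊢
      have := log_trunc_bound' M h5 h3
      have := abs_nonneg (Real.log ‖rfx u a p.1 - p.2‖)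
      linarith
    · rw [h] at h3 ⊢
      have := log_trunc_bound' M h6 h3
      have := abs_nonneg (Real.log ‖p.1 - p.2‖)
      linarith
  have h9 := abs_sub (Real.log (‖swp u a Q p.1 - swp u a Q p.2‖ ^ 2 + Real.exp (-(M : ℝ)) ^ 2))
    (Real.log (‖p.1 - p.2‖ ^ 2 + Real.exp (-(M : ℝ)) ^ 2))
  calc _ ≤ (2 * Real.log ((2 * D) ^ 2 + 1) + 4 * |Real.log ‖p.1 - p.2‖|
        + 2 * |Real.log ‖rfx u a p.1 - p.2‖|) * (f p.1 * f p.2) := by
        apply mul_le_mul_of_nonneg_right _ hff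
        linarith
    _ = _ := by ring

lemma exp_tendsto : Tendsto (fun M : ℕ => Real.exp (-(M : ℝ)) ^ 2) atTop (𝓝 0) := by
  have h : Tendsto (fun M : ℕ => Real.exp (-(M : ℝ))) atTop (𝓝 0) := by
    apply Real.tendsto_exp_atBot.comp
    exact tendsto_neg_atTop_atBot.comp tendsto_natCast_atTop_atTop
  have := h.pow 2
  simpa using this

lemma log_tendsto {w : ℝ} (hw : 0 < w) :
    Tendsto (fun M : ℕ => Real.log (w ^ 2 + Real.exp (-(M : ℝ)) ^ 2)) atTop
      (𝓝 (2 * Real.log w)) := by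
  have h := (exp_tendsto.const_add (w ^ 2)).log (by positivity)
  rw [add_zero, Real.log_pow] at h
  push_cast at h
  exact h

lemma swp_integrable (hk : k = 1 ∨ k = 2) {f φ : E k → ℝ} (hf : Dens k f φ) {D : ℝ}
    (u : E k) (hu : ‖u‖ = 1) (a : ℝ) :
    Integrable (fun p : E k × E k => 2 * Real.log ((2 * D) ^ 2 + 1) * (f p.1 * f p.2)
      + 4 * (|Real.log ‖p.1 - p.2‖| * (f p.1 * f p.2))
      + 2 * (|Real.log ‖rfx u a p.1 - p.2‖| * (f p.1 * f p.2))) (volume.prod volume) := by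
  apply Integrable.add
  · apply Integrable.add
    · exact (ff_integrable hf).const_mul _
    · exact (LOGI_.prod_log_integrable hk hf id measurable_id
        (fun R => ⟨R, fun z hz => hz⟩)).const_mul _
  · exact (LOGI_.prod_log_integrable hk hf (rfx u a) (measurable_rfx u a)
      (fun R => ⟨3 * R + 2 * |a|, fun z hz => by
        have := norm_rfx_le u hu a z
        linarith⟩)).const_mul _

/-- the limit `M → ∞` -/
lemma Gm_tendsto (hk : k = 1 ∨ k = 2) {f φ : E k → ℝ} (hf : Dens k f φ) {R₀ D : ℝ}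
    (hR : ∀ z, R₀ ≤ ‖z‖ → f z = 0) (u : E k) (hu : ‖u‖ = 1) (a : ℝ) {Q : Set (E k)}
    (hQ : MeasurableSet Q) (hDD : 3 * R₀ + 2 * |a| + 1 ≤ D) (hR0 : 0 ≤ R₀) :
    Tendsto (fun M : ℕ => ∫ p, Gm f M (swp u a Q) p ∂(volume.prod volume)) atTop
      (𝓝 (2 * dI f (swp u a Q))) := by
  set G : E k × E k → ℝ := fun p =>
    2 * ((Real.log ‖swp u a Q p.1 - swp u a Q p.2‖ - Real.log ‖p.1 - p.2‖) * (f p.1 * f p.2)) with hG
  have hlim : ∀ᵐ p : E k × E k ∂(volume.prod volume),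
      Tendsto (fun M : ℕ => Gm f M (swp u a Q) p) atTop (𝓝 (G p)) := by
    filter_upwards [ae_ne_pair hk u a] with p hp
    have h5 : 0 < ‖p.1 - p.2‖ := norm_pos_iff.2 (sub_ne_zero.2 hp.1)
    have h6 : 0 < ‖rfx u a p.1 - p.2‖ := norm_pos_iff.2 (sub_ne_zero.2 hp.2)
    have h7 : 0 < ‖swp u a Q p.1 - swp u a Q p.2‖ := by
      rcases norm_swp_sub u hu a Q p.1 p.2 with h | h <;> rw [h] <;> assumption
    have h8 := ((log_tendsto h7).sub (log_tendsto h5)).mul_const (f p.1 * f p.2)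
    have h9 : G p = (2 * Real.log ‖swp u a Q p.1 - swp u a Q p.2‖ - 2 * Real.log ‖p.1 - p.2‖)
        * (f p.1 * f p.2) := by
      rw [hG]; ring
    rw [h9]
    exact h8
  have hbd : ∀ M : ℕ, ∀ᵐ p : E k × E k ∂(volume.prod volume), ‖Gm f M (swp u a Q) p‖ ≤
      2 * Real.log ((2 * D) ^ 2 + 1) * (f p.1 * f p.2)
      + 4 * (|Real.log ‖p.1 - p.2‖| * (f p.1 * f p.2))
      + 2 * (|Real.log ‖rfx u a p.1 - p.2‖| * (f p.1 * f p.2)) := by
    intro M
    filter_upwards [ae_ne_pair hk u a] with p hp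
    exact Gm_bound' hf hR M u hu a Q hDD hR0 p hp.1 hp.2
  have hint := swp_integrable hk hf (D := D) u hu a
  have hmain := tendsto_integral_of_dominated_convergence _
    (fun M => (measurable_Gm hf.meas M (measurable_swp u a hQ)).aestronglyMeasurable) hint hbd hlim
  have hGi : Integrable G (volume.prod volume) := by
    have hGm : Measurable G := by
      have h1 := measurable_swp u a hQ
      have h2 := hf.meas
      rw [hG]
      fun_prop
    apply hint.mono' hGm.aestronglyMeasurable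
    filter_upwards [hlim, ae_all_iff.2 hbd] with p h1 h2
    exact le_of_tendsto h1.norm (Filter.Eventually.of_forall h2)
  have hval : ∫ p, G p ∂(volume.prod volume) = 2 * dI f (swp u a Q) := by
    rw [integral_prod _ hGi]
    unfold dI
    simp only [hG]
    rw [← integral_const_mul]
    congr 1
    funext z
    rw [integral_const_mul]
  rw [← hval]
  exact hmain

end COMP2C_

open COMP2C_ in
theorem stmt_COMP2C : Stmt_COMP2C := by
  intro k f φ c hk hf hc U i₀ a p F _ ⟨C, hC⟩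
  obtain ⟨B, R₀, hB0, hR0, hB, hR⟩ := LOGI_.norm_bounds hf
  set D : ℝ := 3 * R₀ + 2 * |a| + 1 with hD
  have h1 : ∀ M : ℕ, -(C * Real.exp (-(c * M)))
      ≤ ∫ p', Gm f M (swp (uv U i₀) a (grd U i₀ a p F)) p' ∂(volume.prod volume) := by
    intro M
    apply ge_of_tendsto (dIM_tendsto hf U i₀ a p F M hR hD.ge hR0)
    filter_upwards [eventually_ge_atTop p] with q hq
    exact hC q M hq
  have h2 := Gm_tendsto hk hf hR (uv U i₀) (norm_uv U i₀) a (measurableSet_grd U i₀ a p F)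
    hD.ge hR0
  have h3 : Tendsto (fun M : ℕ => -(C * Real.exp (-(c * M)))) atTop (𝓝 0) := by
    have h4 : Tendsto (fun M : ℕ => Real.exp (-(c * M))) atTop (𝓝 0) := by
      apply Real.tendsto_exp_atBot.comp
      apply tendsto_neg_atTop_atBot.comp
      exact tendsto_natCast_atTop_atTop.const_mul_atTop hc
    have h5 := (h4.const_mul C).neg
    simpa using h5
  have h4 := le_of_tendsto_of_tendsto' h3 h2 h1
  linarith

end Pool.NS
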